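import Pool.Agent.Helper77.DS.Kos

/-!
DS-13 (MP_b07a0a): Fourier analysis on `(ZMod 2) ^ I` with values in a commutative algebra.
-/

namespace Pool.Agent.Helper88.DS

open Finset

section sg

variable {I : Type} [Fintype I] [DecidableEq I]

/-- The characters of the group of subsets of `I`. -/
def sg (B X : Finset I) : ℤ := ∏ i, if i ∈ B ∧ i ∈ X then -1 else 1

theorem sg_comm (B X : Finset I) : sg B X = sg X B := by
  unfold sg
  refine Finset.prod_congr rfl fun i _ => ?_
  simp only [and_comm]

theorem sg_symmDiff_right (B X Y : Finset I) : sg B (symmDiff X Y) = sg B X * sg B Y := by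
  unfold sg
  rw [← Finset.prod_mul_distrib]
  refine Finset.prod_congr rfl fun i _ => ?_
  simp only [Finset.mem_symmDiff]
  by_cases h1 : i ∈ B <;> by_cases h2 : i ∈ X <;> by_cases h3 : i ∈ Y <;> simp [h1, h2, h3]

theorem sg_symmDiff_left (B B' X : Finset I) : sg (symmDiff B B') X = sg B X * sg B' X := by
  rw [sg_comm, sg_symmDiff_right, sg_comm X B, sg_comm X B']

theorem sg_empty (B : Finset I) : sg B ∅ = 1 := by
  simp [sg]

theorem empty_sg (B : Finset I) : sg ∅ B = 1 := by
  simp [sg]

theorem sg_singleton (B : Finset I) (i : I) : sg B {i} = if i ∈ B then -1 else 1 := by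
  unfold sg
  rw [Finset.prod_eq_single i]
  · simp
  · intro j _ hj
    simp [hj]
  · simp

theorem sg_pm (B X : Finset I) : sg B X = 1 ∨ sg B X = -1 := by
  unfold sg
  refine Finset.prod_induction _ (fun z : ℤ => z = 1 ∨ z = -1) ?_ (Or.inl rfl) ?_
  · rintro a b (h | h) (h' | h') <;> simp [h, h']
  · intro i _
    split_ifs <;> simp

theorem sum_sg (X : Finset I) :
    ∑ B : Finset I, sg B X = if X = ∅ then 2 ^ Fintype.card I else 0 := by
  split_ifs with hX
  · subst hX
    simp [sg_empty, Finset.card_univ, Fintype.card_finset]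
  · obtain ⟨i, hi⟩ := Finset.nonempty_iff_ne_empty.mpr hX
    have key : ∑ B : Finset I, sg B X = ∑ B : Finset I, - sg B X := by
      let e : Finset I ≃ Finset I :=
        ⟨fun B => symmDiff B {i}, fun B => symmDiff B {i},
          fun B => by simp, fun B => by simp⟩
      rw [← Equiv.sum_comp e]
      refine Finset.sum_congr rfl fun B _ => ?_
      change sg (symmDiff B {i}) X = _
      rw [sg_symmDiff_left, sg_comm {i} X, sg_singleton, if_pos hi]
      ring
    rw [Finset.sum_neg_distrib] at key
    omega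

/-- For nonempty `B s`, `s : Fin (2 * m)`, some `C` has `sg (B s) C = - 1` for at least `m`
of the `s`. -/
theorem exists_many (m : ℕ) (B : Fin (2 * m) → Finset I) (hB : ∀ s, B s ≠ ∅) :
    ∃ C : Finset I, m ≤ (Finset.univ.filter fun s => sg (B s) C = -1).card := by
  by_contra hcon
  push Not at hcon
  have h1 : ∑ C : Finset I, ∑ s, (1 - sg (B s) C) = (2 * m) * 2 ^ Fintype.card I := by
    rw [Finset.sum_comm]
    have : ∀ s : Fin (2 * m), ∑ C : Finset I, (1 - sg (B s) C) = 2 ^ Fintype.card I := by
      intro s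
      rw [Finset.sum_sub_distrib]
      have h2 : ∑ C : Finset I, sg (B s) C = 0 := by
        have := sum_sg (B s)
        rw [if_neg (hB s)] at this
        rw [← this]
        exact Finset.sum_congr rfl fun C _ => sg_comm _ _
      rw [h2]
      simp [Finset.card_univ, Fintype.card_finset]
    rw [Finset.sum_congr rfl fun s _ => this s]
    simp
  have h2 : ∀ C : Finset I, ∑ s, (1 - sg (B s) C) ≤ 2 * m - 1 := by
    intro C
    have h3 : ∑ s, (1 - sg (B s) C) =
        2 * ((Finset.univ.filter fun s => sg (B s) C = -1).card : ℤ) := by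
      rw [Finset.card_filter]
      push_cast
      rw [Finset.mul_sum]
      refine Finset.sum_congr rfl fun s _ => ?_
      rcases sg_pm (B s) C with h | h <;> simp [h]
    have h4 := hcon C
    rw [h3]
    omega
  have h5 : ∑ C : Finset I, ∑ s, (1 - sg (B s) C) ≤ ∑ _C : Finset I, (2 * (m : ℤ) - 1) :=
    Finset.sum_le_sum fun C _ => h2 C
  rw [h1] at h5
  simp only [Finset.sum_const, Finset.card_univ, Fintype.card_finset, nsmul_eq_mul] at h5
  push_cast at h5
  have : (0 : ℤ) < 2 ^ Fintype.card I := by positivity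
  nlinarith

end sg

section core

variable {I : Type} [Fintype I] [DecidableEq I] {A : Type} [CommRing A]

/-- The Fourier transform. -/
def hat (φ : Finset I → A) (B : Finset I) : A := ∑ X, (sg B X : A) * φ X

theorem fourier (φ : Finset I → A) (i : I) :
    (2 ^ Fintype.card I : A) * (φ ∅ - φ {i}) =
      ∑ B, (1 - (sg B {i} : A)) * hat φ B := by
  have h1 : ∀ Y : Finset I, ∑ B, (sg B Y : A) * hat φ B = 2 ^ Fintype.card I * φ Y := by
    intro Y
    unfold hat
    simp only [Finset.mul_sum]
    rw [Finset.sum_comm]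
    have : ∀ X : Finset I, ∑ B : Finset I, (sg B Y : A) * ((sg B X : A) * φ X) =
        if X = Y then 2 ^ Fintype.card I * φ Y else 0 := by
      intro X
      have h2 : ∑ B : Finset I, (sg B Y : A) * ((sg B X : A) * φ X) =
          ((∑ B : Finset I, sg B (symmDiff Y X) : ℤ) : A) * φ X := by
        push_cast
        rw [Finset.sum_mul]
        refine Finset.sum_congr rfl fun B _ => ?_
        rw [sg_symmDiff_right]
        push_cast
        ring
      rw [h2, sum_sg]
      by_cases hXY : X = Y
      · subst hXY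
        simp
      · rw [if_neg, if_neg hXY]
        · simp
        · intro h0
          exact hXY (symmDiff_eq_bot.mp h0).symm
    rw [Finset.sum_congr rfl fun X _ => this X]
    simp
  have h2 := h1 ∅
  have h3 := h1 {i}
  simp only [sg_empty, Int.cast_one, one_mul] at h2
  rw [mul_sub, ← h2, ← h3, ← Finset.sum_sub_distrib]
  refine Finset.sum_congr rfl fun B _ => ?_
  ring

theorem two_hat (φ : Finset I → A) (B C : Finset I) (h : sg B C = -1) :
    2 * hat φ B = ∑ X, (sg B X : A) * (φ X - φ (symmDiff X C)) := by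
  have h1 : hat φ B = - ∑ X, (sg B X : A) * φ (symmDiff X C) := by
    unfold hat
    let e : Finset I ≃ Finset I :=
      ⟨fun X => symmDiff X C, fun X => symmDiff X C,
        fun B => by simp, fun B => by simp⟩
    rw [← Equiv.sum_comp e, ← Finset.sum_neg_distrib]
    refine Finset.sum_congr rfl fun X _ => ?_
    change (sg B (symmDiff X C) : A) * φ (symmDiff X C) = _
    rw [sg_symmDiff_right, h]
    push_cast
    ring
  rw [two_mul]
  nth_rewrite 2 [h1]
  unfold hat
  rw [← sub_eq_add_neg, ← Finset.sum_sub_distrib]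
  refine Finset.sum_congr rfl fun X _ => ?_
  ring

theorem core (J : Ideal A) (h2 : ∀ x : A, 2 * x ∈ J → x ∈ J) (m : ℕ)
    (φ : Fin (2 * m) → Finset I → A)
    (h : ∀ (C : Finset I) (e : Fin m → Fin (2 * m)) (X : Fin m → Finset I),
      ∏ s, (φ (e s) (X s) - φ (e s) (symmDiff (X s) C)) ∈ J) (i : Fin (2 * m) → I) :
    ∏ s, (φ s ∅ - φ s {i s}) ∈ J := by
  have h2' : ∀ (k : ℕ) (x : A), 2 ^ k * x ∈ J → x ∈ J := by
    intro k
    induction k with
    | zero => intro x hx; simpa using hx
    | succ k ih =>
      intro x hx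
      refine ih x (h2 _ ?_)
      rw [← mul_assoc, ← pow_succ']
      exact hx
  -- products of nontrivial Fourier coefficients vanish
  have key : ∀ B : Fin (2 * m) → Finset I, (∀ s, B s ≠ ∅) → ∏ s, hat (φ s) (B s) ∈ J := by
    intro B hB
    obtain ⟨C, hC⟩ := exists_many m B hB
    obtain ⟨T, hT, hTm⟩ := Finset.exists_subset_card_eq hC
    rw [← Finset.prod_mul_prod_compl T]
    refine J.mul_mem_right _ ?_
    refine h2' m _ ?_
    have h3 : (2 ^ m : A) * ∏ s ∈ T, hat (φ s) (B s) =
        ∏ s : Fin m, (2 * hat (φ (T.orderEmbOfFin hTm s)) (B (T.orderEmbOfFin hTm s))) := by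
      rw [Finset.prod_mul_distrib]
      congr 1
      · simp
      · have h6 := Finset.prod_map Finset.univ (T.orderEmbOfFin hTm).toEmbedding
          (fun s => hat (φ s) (B s))
        rw [Finset.map_orderEmbOfFin_univ T hTm] at h6
        exact h6
    rw [h3]
    have h4 : ∀ s : Fin m,
        2 * hat (φ (T.orderEmbOfFin hTm s)) (B (T.orderEmbOfFin hTm s)) =
          ∑ X, (sg (B (T.orderEmbOfFin hTm s)) X : A) * (φ (T.orderEmbOfFin hTm s) X -
            φ (T.orderEmbOfFin hTm s) (symmDiff X C)) := by
      intro s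
      refine two_hat _ _ _ ?_
      have := hT (T.orderEmbOfFin_mem hTm s)
      simpa using this
    rw [Finset.prod_congr rfl fun s _ => h4 s, Finset.prod_univ_sum]
    refine J.sum_mem fun X _ => ?_
    rw [Finset.prod_mul_distrib]
    exact J.mul_mem_left _ (h C _ X)
  refine h2' (Fintype.card I * (2 * m)) _ ?_
  have h5 : (2 ^ (Fintype.card I * (2 * m)) : A) * ∏ s, (φ s ∅ - φ s {i s}) =
      ∏ s, ((2 ^ Fintype.card I : A) * (φ s ∅ - φ s {i s})) := by
    rw [Finset.prod_mul_distrib]
    simp [pow_mul]
  rw [h5, Finset.prod_congr rfl fun s _ => fourier (φ s) (i s), Finset.prod_univ_sum]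
  refine J.sum_mem fun B _ => ?_
  by_cases hB : ∀ s, B s ≠ ∅
  · rw [Finset.prod_mul_distrib]
    exact J.mul_mem_left _ (key B hB)
  · push Not at hB
    obtain ⟨s, hs⟩ := hB
    rw [Finset.prod_eq_zero (Finset.mem_univ s)]
    · exact J.zero_mem
    · rw [hs, empty_sg]
      simp

end core

end Pool.Agent.Helper88.DS

namespace Pool.Agent.Helper77.DS

open MvPolynomial Pool.Agent.Helper88.DS

noncomputable section

/-- DS-13 -/
theorem flat_pow {I E : Type} [Fintype I] [DecidableEq I] [Finite E] (m : ℕ)
    (J : Ideal (MvPolynomial (I → E) ℂ))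
    (h : ∀ (C : Finset I) (u v : Fin m → I → E),
      ∏ s, (X (u s) * X (v s) -
        X (C.piecewise (v s) (u s)) * X (C.piecewise (u s) (v s))) ∈ J) :
    segI I E ^ (2 * m) ≤ J := by
  have h2 : ∀ x : MvPolynomial (I → E) ℂ, 2 * x ∈ J → x ∈ J := by
    intro x hx
    have := J.mul_mem_left (C (1 / 2)) hx
    rw [← mul_assoc] at this
    have h3 : (C (1 / 2) * 2 : MvPolynomial (I → E) ℂ) = 1 := by
      have : (2 : MvPolynomial (I → E) ℂ) = C 2 := (map_ofNat C 2).symm
      rw [this, ← C_mul]
      norm_num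
    rwa [h3, one_mul] at this
  unfold segI
  rw [Ideal.span, Submodule.span_pow, Submodule.span_le]
  intro f hf
  rw [Set.mem_pow] at hf
  obtain ⟨g, hg⟩ := hf
  rw [List.prod_ofFn] at hg
  choose u v i hi using fun s => (g s).2
  rw [← hg]
  have key := core J h2 m
    (fun s Y => X (Y.piecewise (v s) (u s)) * X (Y.piecewise (u s) (v s))) ?_ i
  · have h4 : ∀ s, ((g s : MvPolynomial (I → E) ℂ)) =
        X ((∅ : Finset I).piecewise (v s) (u s)) * X ((∅ : Finset I).piecewise (u s) (v s)) -
          X (({i s} : Finset I).piecewise (v s) (u s)) *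
            X (({i s} : Finset I).piecewise (u s) (v s)) := by
      intro s
      rw [hi s]
      simp only [Finset.piecewise_empty, Finset.piecewise_singleton]
    rw [Finset.prod_congr rfl fun s _ => h4 s]
    exact key
  · intro C e Y
    have h5 := h C (fun s => (Y s).piecewise (v (e s)) (u (e s)))
      (fun s => (Y s).piecewise (u (e s)) (v (e s)))
    have h6 : ∀ (Z : Finset I) (a b : I → E),
        (symmDiff Z C).piecewise b a = C.piecewise (Z.piecewise a b) (Z.piecewise b a) := by
      intro Z a b
      funext j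
      simp only [Finset.piecewise, Finset.mem_symmDiff]
      by_cases h7 : j ∈ Z <;> by_cases h8 : j ∈ C <;> simp [h7, h8]
    simp only [h6]
    exact h5

end

end Pool.Agent.Helper77.DS
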